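import Pool.Agent.helper67.TPC.Spec

/-!
# Project tpc (MP_ebc808_nt): row LFR
-/

set_option autoImplicit false

open Finset PowerSeries

noncomputable section

namespace Pool.Agent.TPC

open Finset Pool.Agent.EP

theorem LFR_per (t : ℕ) (r : ℕ → ZMod 2) (hr : ∀ n, r (n + t) = r n) (k n : ℕ) : r (n + k * t) = r n := by
  induction k with
  | zero => simp
  | succ k ih =>
    rw [Nat.succ_mul, ← Nat.add_assoc, hr, ih]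

theorem LFR_rz (t : ℕ) (r : ℕ → ZMod 2) (hr : ∀ n, r (n + t) = r n) (n : ℕ) (n' : ℤ)
    (h : (t : ℤ) ∣ (n : ℤ) - n') : r n = rz r t n' := by
  unfold rz
  have h1 : n' % (t : ℤ) = ((n % t : ℕ) : ℤ) := by
    rw [Int.natCast_mod]
    exact (Int.modEq_iff_dvd.2 h)
  rw [h1, Int.toNat_natCast]
  have h2 := LFR_per t r hr (n / t) (n % t)
  rw [mul_comm (n / t) t, Nat.mod_add_div] at h2
  exact h2

theorem LFR_core (i t e s T n₀ : ℕ) (r : ℕ → ZMod 2) (ht : 0 < t) (hr : ∀ n, r (n + t) = r n)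
    (h24 : 24 * t = 2 ^ e * T) (hes : e ≤ s) (his : i + 3 ≤ s) (hs4 : 4 ≤ s) (h3T : 3 ∣ T) (hn₀ : 1 ≤ n₀)
    (N : ℕ) (N' : ℤ) (h1 : (N : ℤ) ≡ N' [ZMOD (2 ^ s * T : ℕ)]) (h2 : N' ≡ ((24 * n₀ - 1 : ℕ) : ℤ) [ZMOD (2 ^ s : ℕ)])
    (h3 : N' ≡ -1 [ZMOD 3]) :
    ∃ n : ℕ, 24 * n = N + 1 ∧ n % 2 ^ i = n₀ % 2 ^ i ∧ r n = rz r t ((N' + 1) / 24) := by
  have h0 : ((24 * n₀ - 1 : ℕ) : ℤ) = 24 * (n₀ : ℤ) - 1 := by
    rw [Nat.cast_sub (by omega)]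
    push_cast
    ring
  rw [h0] at h2
  obtain ⟨T', hT'⟩ := h3T
  obtain ⟨w, hw⟩ : ∃ w, s = w + 3 := ⟨s - 3, by omega⟩
  have h2s : (2 : ℕ) ^ s = 8 * 2 ^ w := by
    rw [hw, pow_add]
    ring
  have d1 : ((2 ^ s * T : ℕ) : ℤ) ∣ N' - N := h1.dvd
  have d2 : ((2 ^ s : ℕ) : ℤ) ∣ (24 * (n₀ : ℤ) - 1) - N' := h2.dvd
  have d3 : (3 : ℤ) ∣ -1 - N' := h3.dvd
  have d8 : (8 : ℤ) ∣ (24 * (n₀ : ℤ) - 1) - N' := by
    refine dvd_trans ?_ d2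
    rw [h2s]
    push_cast
    exact dvd_mul_right _ _
  have d24 : (24 : ℤ) ∣ N' + 1 := by omega
  have d24' : (24 : ℤ) ∣ N' - N := by
    refine dvd_trans ?_ d1
    rw [h2s, hT']
    exact ⟨2 ^ w * T', by push_cast; ring⟩
  have d24N : (24 : ℤ) ∣ (N : ℤ) + 1 := by omega
  obtain ⟨n', hn'⟩ := d24
  have d24N' : 24 ∣ N + 1 := by exact_mod_cast d24N
  obtain ⟨n, hn⟩ := d24N'
  have hnz : (N : ℤ) + 1 = 24 * n := by exact_mod_cast hn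
  refine ⟨n, hn.symm, ?_, ?_⟩
  · have e1 : ((2 ^ s : ℕ) : ℤ) ∣ N' - N := dvd_trans (by push_cast; exact dvd_mul_right _ _) d1
    have e2 : ((2 ^ s : ℕ) : ℤ) ∣ 24 * (n₀ : ℤ) - 24 * n := by
      have := dvd_add e1 d2
      have h4 : N' - N + ((24 * (n₀ : ℤ) - 1) - N') = 24 * (n₀ : ℤ) - 24 * n := by
        rw [← hnz]
        ring
      rwa [h4] at this
    have e3 : ((2 : ℤ) ^ w) ∣ 3 * ((n₀ : ℤ) - n) := by
      rw [h2s] at e2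
      have h5 : (8 : ℤ) * 2 ^ w ∣ 8 * (3 * ((n₀ : ℤ) - n)) := by
        have h6 : 8 * (3 * ((n₀ : ℤ) - n)) = 24 * (n₀ : ℤ) - 24 * n := by ring
        rw [h6]
        push_cast at e2
        exact e2
      exact (mul_dvd_mul_iff_left (by norm_num : (8 : ℤ) ≠ 0)).1 h5
    have e4 : ((2 : ℤ) ^ w) ∣ (n₀ : ℤ) - n := by
      refine (IsCoprime.pow_left ?_).dvd_of_dvd_mul_left e3
      exact ⟨-1, 1, by norm_num⟩
    have e5 : ((2 : ℤ) ^ i) ∣ (n₀ : ℤ) - n := dvd_trans (pow_dvd_pow _ (by omega)) e4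
    have e6 : (n : ℤ) ≡ n₀ [ZMOD ((2 ^ i : ℕ) : ℤ)] := by
      rw [Int.modEq_iff_dvd]
      push_cast
      exact e5
    exact (Int.natCast_modEq_iff.1 e6)
  · have h7 : (N' + 1) / 24 = n' := by
      rw [hn']
      exact Int.mul_ediv_cancel_left _ (by norm_num)
    rw [h7]
    apply LFR_rz t r hr
    have e1 : ((24 * t : ℕ) : ℤ) ∣ N' - N := by
      refine dvd_trans ?_ d1
      rw [h24]
      exact Int.natCast_dvd_natCast.2 (Nat.mul_dvd_mul_right (pow_dvd_pow _ hes) T)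
    have e2 : (24 : ℤ) * t ∣ 24 * ((n : ℤ) - n') := by
      have h8 : 24 * ((n : ℤ) - n') = -(N' - N) := by
        rw [mul_sub, ← hnz, ← hn']
        ring
      rw [h8, dvd_neg]
      push_cast at e1
      exact e1
    exact (mul_dvd_mul_iff_left (by norm_num : (24 : ℤ) ≠ 0)).1 e2

theorem LFR_sq (u : ℕ) (h : u.Coprime 6) : (u : ℤ) ^ 2 ≡ 1 [ZMOD 3] := by
  have h3 : ¬ 3 ∣ u := by
    intro h3
    have h4 : 3 ∣ Nat.gcd u 6 := Nat.dvd_gcd h3 (by norm_num)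
    rw [Nat.Coprime.gcd_eq_one h] at h4
    omega
  have h5 : (u : ℤ) % 3 = 1 ∨ (u : ℤ) % 3 = 2 := by omega
  rcases h5 with h5 | h5
  · have : (u : ℤ) ≡ 1 [ZMOD 3] := h5
    simpa using this.pow 2
  · have : (u : ℤ) ≡ 2 [ZMOD 3] := h5
    have h6 := this.pow 2
    exact h6.trans (by decide)

theorem LFR_arith (s T n₀ : ℕ) (S : Finset ℕ) (μ κ x₀ : ℕ) (h3T : 3 ∣ T) (hn₀ : 1 ≤ n₀)
    (hC : Cls s T (24 * n₀ - 1) S μ κ x₀) (u : ℕ) (hu : u.Coprime 6) :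
    ((((∏ l ∈ S, l : ℕ) : ℤ) * κ * ((μ : ℤ) - 2 ^ s * (u : ℤ) ^ 2)) ≡ ((24 * n₀ - 1 : ℕ) : ℤ) [ZMOD (2 ^ s : ℕ)] ∧
      (((∏ l ∈ S, l : ℕ) : ℤ) * κ * ((μ : ℤ) - 2 ^ s * (u : ℤ) ^ 2)) ≡ -1 [ZMOD 3]) ∧
    (((((∏ l ∈ S, l : ℕ) : ℤ) * κ - 2 ^ s * (u : ℤ) ^ 2) * μ) ≡ ((24 * n₀ - 1 : ℕ) : ℤ) [ZMOD (2 ^ s : ℕ)] ∧
      ((((∏ l ∈ S, l : ℕ) : ℤ) * κ - 2 ^ s * (u : ℤ) ^ 2) * μ) ≡ -1 [ZMOD 3]) := by
  obtain ⟨-, -, -, -, hx6, hk2, hkT, hM2, hMT, -⟩ := hC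
  generalize (∏ l ∈ S, l) = Q at *
  have a1 : (Q : ℤ) * κ ≡ 1 [ZMOD (2 ^ s : ℕ)] := by
    have := Int.natCast_modEq_iff.2 hk2
    push_cast at this ⊢
    exact this
  have a2 : (μ : ℤ) ≡ ((24 * n₀ - 1 : ℕ) : ℤ) [ZMOD (2 ^ s : ℕ)] := Int.natCast_modEq_iff.2 hM2
  have a3 : (Q : ℤ) * κ ≡ 2 * 2 ^ s [ZMOD 3] := by
    have := Int.natCast_modEq_iff.2 (hkT.of_dvd h3T)
    push_cast at this
    exact this
  have a4 : (Q : ℤ) * κ * μ ≡ ((24 * n₀ - 1 : ℕ) : ℤ) + Q * κ * (2 ^ s * (x₀ : ℤ) ^ 2) [ZMOD 3] := by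
    have := Int.natCast_modEq_iff.2 (hMT.of_dvd h3T)
    push_cast at this ⊢
    exact this
  have hu2 := LFR_sq u hu
  have hx2 := LFR_sq x₀ hx6
  have hm1 : ((24 * n₀ - 1 : ℕ) : ℤ) ≡ -1 [ZMOD 3] := by
    rw [Nat.cast_sub (by omega)]
    push_cast
    show (24 * (n₀ : ℤ) - 1) % 3 = -1 % 3
    omega
  have hz : ((2 : ℤ) ^ s * (u : ℤ) ^ 2) ≡ 0 [ZMOD (2 ^ s : ℕ)] := by
    rw [Int.modEq_zero_iff_dvd]
    push_cast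
    exact dvd_mul_right _ _
  have h4s : ((4 : ℤ) ^ s) ≡ 1 [ZMOD 3] := by
    have : (4 : ℤ) ≡ 1 [ZMOD 3] := by decide
    simpa using this.pow s
  refine ⟨⟨?_, ?_⟩, ?_, ?_⟩
  · have := a1.mul (a2.sub hz)
    simpa using this
  · have b1 : (Q : ℤ) * κ * (2 ^ s * (u : ℤ) ^ 2) ≡ Q * κ * (2 ^ s * 1) [ZMOD 3] :=
      (Int.ModEq.refl _).mul ((Int.ModEq.refl _).mul hu2)
    have b2 : (Q : ℤ) * κ * (2 ^ s * (x₀ : ℤ) ^ 2) ≡ Q * κ * (2 ^ s * 1) [ZMOD 3] :=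
      (Int.ModEq.refl _).mul ((Int.ModEq.refl _).mul hx2)
    have b3 := (a4.trans (hm1.add b2)).sub b1
    have b4 : (Q : ℤ) * κ * ((μ : ℤ) - 2 ^ s * (u : ℤ) ^ 2) = Q * κ * μ - Q * κ * (2 ^ s * (u : ℤ) ^ 2) := by ring
    rw [b4]
    have b5 : (-1 : ℤ) + Q * κ * (2 ^ s * 1) - Q * κ * (2 ^ s * 1) = -1 := by ring
    rw [b5] at b3
    exact b3
  · have b1 := (a1.sub hz).mul a2
    simpa using b1
  · -- `2 * 2^s * μ = -1 + 2 * 4^s = 1`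
    have b1 : (2 * 2 ^ s : ℤ) * μ ≡ 1 [ZMOD 3] := by
      have c1 : (2 * 2 ^ s : ℤ) * μ ≡ Q * κ * μ [ZMOD 3] := (a3.symm).mul_right _
      have c2 : (Q : ℤ) * κ * (2 ^ s * (x₀ : ℤ) ^ 2) ≡ 2 * 2 ^ s * (2 ^ s * 1) [ZMOD 3] :=
        a3.mul ((Int.ModEq.refl _).mul hx2)
      have c3 : (2 * 2 ^ s * (2 ^ s * 1) : ℤ) = 2 * 4 ^ s := by
        have : (4 : ℤ) ^ s = 2 ^ s * 2 ^ s := by rw [← mul_pow]; norm_num
        rw [this]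
        ring
      rw [c3] at c2
      have c4 : (2 : ℤ) * 4 ^ s ≡ 2 * 1 [ZMOD 3] := h4s.mul_left 2
      have c5 := c1.trans (a4.trans (hm1.add (c2.trans c4)))
      exact c5.trans (by decide)
    have b2 : ((Q : ℤ) * κ - 2 ^ s * (u : ℤ) ^ 2) * μ ≡ (2 * 2 ^ s - 2 ^ s * 1) * μ [ZMOD 3] :=
      (a3.sub ((Int.ModEq.refl _).mul hu2)).mul_right _
    have b3 : (2 * 2 ^ s - 2 ^ s * 1 : ℤ) * μ = 2 ^ s * μ := by ring
    rw [b3] at b2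
    refine b2.trans ?_
    have b4 : (2 : ℤ) * (2 * 2 ^ s * μ) ≡ 2 * 1 [ZMOD 3] := b1.mul_left 2
    have b5 : (2 ^ s * μ : ℤ) ≡ 2 * (2 * 2 ^ s * μ) [ZMOD 3] := by
      rw [Int.modEq_iff_dvd]
      exact ⟨2 ^ s * μ, by ring⟩
    exact (b5.trans b4).trans (by decide)

theorem LFR : LFR_stmt := by
  intro i t e s T n₀ r S μ κ x₀ ht hr h24 hes his hs4 hT2 h3T hn₀ hC
  refine ⟨fun M p u hM hp hu hlt => ?_, fun M p u hM hp hu hlt => ?_⟩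
  · obtain ⟨⟨h2, h3⟩, -⟩ := LFR_arith s T n₀ S μ κ x₀ h3T hn₀ hC u hu
    generalize (∏ l ∈ S, l) = Q at *
    have hM' : (M : ℤ) ≡ μ [ZMOD (2 ^ s * T : ℕ)] := by
      have : M ≡ μ [MOD 2 ^ s * T * Q] := hM
      exact Int.natCast_modEq_iff.2 (this.of_mul_right Q)
    have hp' : (p : ℤ) ≡ κ [ZMOD (2 ^ s * T : ℕ)] := by
      have : p ≡ κ [MOD 2 ^ s * T * Q] := hp
      exact Int.natCast_modEq_iff.2 (this.of_mul_right Q)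
    have h1 : ((Q * p * (M - 2 ^ s * u ^ 2) : ℕ) : ℤ) ≡ (Q : ℤ) * κ * ((μ : ℤ) - 2 ^ s * (u : ℤ) ^ 2)
        [ZMOD (2 ^ s * T : ℕ)] := by
      rw [Nat.cast_mul, Nat.cast_mul, Nat.cast_sub hlt.le]
      push_cast
      have hM'' := hM'
      have hp'' := hp'
      push_cast at hM'' hp''
      exact (hp''.mul_left _).mul (hM''.sub (Int.ModEq.refl _))
    exact LFR_core i t e s T n₀ r ht hr h24 hes his hs4 h3T hn₀ _ _ h1 h2 h3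
  · obtain ⟨-, h2, h3⟩ := LFR_arith s T n₀ S μ κ x₀ h3T hn₀ hC u hu
    generalize (∏ l ∈ S, l) = Q at *
    have hM' : (M : ℤ) ≡ μ [ZMOD (2 ^ s * T : ℕ)] := by
      have : M ≡ μ [MOD 2 ^ s * T * Q] := hM
      exact Int.natCast_modEq_iff.2 (this.of_mul_right Q)
    have hp' : (p : ℤ) ≡ κ [ZMOD (2 ^ s * T : ℕ)] := by
      have : p ≡ κ [MOD 2 ^ s * T * Q] := hp
      exact Int.natCast_modEq_iff.2 (this.of_mul_right Q)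
    have h1 : (((Q * p - 2 ^ s * u ^ 2) * M : ℕ) : ℤ) ≡ ((Q : ℤ) * κ - 2 ^ s * (u : ℤ) ^ 2) * μ
        [ZMOD (2 ^ s * T : ℕ)] := by
      rw [Nat.cast_mul (Q * p - 2 ^ s * u ^ 2) M, Nat.cast_sub hlt.le]
      push_cast
      have hM'' := hM'
      have hp'' := hp'
      push_cast at hM'' hp''
      exact ((hp''.mul_left _).sub (Int.ModEq.refl _)).mul hM''
    exact LFR_core i t e s T n₀ r ht hr h24 hes his hs4 h3T hn₀ _ _ h1 h2 h3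

end Pool.Agent.TPC
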